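import Pool.Agent.Helper10_KTB.RMV
import Pool.Agent.Helper14_KTB.RKA
import Pool.Agent.Helper16_KTB.FBG
import Pool.Agent.Helper16_KTB.STS
import Pool.Agent.Helper19_KTB.TUN
import Pool.Agent.Helper21_GEN.LMX
import Pool.Agent.Helper21_KTB.TGA
import Pool.Agent.Helper22_KTB.IS1
import Pool.Agent.Helper23_KTB.TGC
import Pool.Agent.Helper24_KTB.NST
import Pool.Agent.Helper25_KTB.XCL
import Pool.Agent.Helper26_KTB.FRC
import Pool.Agent.Helper31_KTB.DST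
import Pool.Agent.Helper38_KTB.KIA
import Pool.Agent.Helper38_KTB.TWO
import Pool.Agent.Helper41_KTB.BPL
import Pool.Agent.Helper41_KTB.FRA
import Pool.Agent.Helper41_KTB.KVK
import Pool.Agent.Helper47_KTB.BSA
import Pool.Agent.Helper49_KTB.BAS
import Pool.Agent.Helper4_KTB.INS
import Pool.Agent.Helper50_KTB.STE
import Pool.Agent.Helper51_KTB.BFI
import Pool.Agent.Helper54_KTB.IPX
import Pool.Agent.Helper58_KTB.KPI
import Pool.Agent.Helper5_KTB.UPH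
import Pool.Agent.Helper60_KTB.CLM
import Pool.Agent.Helper60_KTB.IS0
import Pool.Agent.Helper60_KTB.ISO
import Pool.Agent.Helper64_KTB.RKB
import Pool.Agent.Helper65_KTB.FRB
import Pool.Agent.Helper66_KTB.IDN
import Pool.Agent.Helper66_KTB.TCH
import Pool.Agent.Helper66_KTB.TGB
import Pool.Agent.Helper69_KTB.TRM
import Pool.Agent.Helper70_KTB.RAY
import Pool.Agent.Helper73_KTB.CLO
import Pool.Agent.Helper73_KTB.PEL
import Pool.Agent.Helper73_KTB.SML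
import Pool.Agent.Helper80_KTB.GNR
import Pool.Agent.Helper80_KTB.TGM
import Pool.Agent.Helper81_KTB.BRH
import Pool.Agent.Helper85_KTB.PRA
import Pool.Agent.Helper87_KTB.IPM
import Pool.Agent.Helper90_KTB.CHN
import Pool.Agent.Helper90_KTB.DIM
import Pool.Agent.Helper90_KTB.DSC
import Pool.Agent.Helper90_KTB.XTK
import Pool.Agent.Helper91_KTB.FRT
import Pool.Agent.Helper91_KTB.XCS
import Pool.Agent.Helper92_KTB.KPN
import Pool.Agent.Helper95_KTB.NTH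
import Pool.Agent.Helper95_KTB.TGD

/-!
# Squad KTB (MP_b48657_ag): assembly
-/

set_option autoImplicit false

namespace Pool.Agent.KTB.H63

open Pool.Agent.KTB

theorem kpiStmt  : Pool.Agent.GEN.KpiStmt := by
  have hIDN : IdnStmt := Pool.Agent.KTB.H66.idn
  have hRAY : RayStmt := Pool.Agent.KTB.H70.ray hIDN
  have hPEL : PelStmt := Pool.Agent.KTB.H73.pel hRAY
  have hSTS : StsStmt := Pool.Agent.KTB.H16.sts hIDN hRAY hPEL
  have hGNR : GnrStmt := Pool.Agent.KTB.H80.gnr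
  have hTRM : TrmStmt := Pool.Agent.KTB.H69.trm hSTS hGNR
  have hIPM : IpmStmt := Pool.Agent.KTB.H87.ipm hIDN
  have hXTK : XtkStmt := Pool.Agent.KTB.H90.xtk hIDN hRAY
  have hCHN : ChnStmt := Pool.Agent.KTB.H90.chn hXTK
  have hINS : InsStmt := Pool.Agent.KTB.H4.ins hIDN hRAY
  have hTUN : TunStmt := Pool.Agent.KTB.H19.tun hIDN hRAY hSTS hGNR
  have hPRA : PraStmt := Pool.Agent.KTB.H85.pra hIDN hRAY
  have hBSA : BsaStmt := Pool.Agent.KTB.H47.bsa hIDN hRAY hPRA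
  have hSML : SmlStmt := Pool.Agent.KTB.H73.sml hIDN hRAY
  have hCLO : CloStmt := Pool.Agent.KTB.H73.clo hIDN hRAY
  have hUPH : UphStmt := Pool.Agent.KTB.H5.uph hIDN hRAY hSML hCLO
  have hBRH : BrhStmt := Pool.Agent.KTB.H81.brh hIDN hRAY hCLO
  have hTCH : TchStmt := Pool.Agent.KTB.H66.tch hRAY
  have hBPL : BplStmt := Pool.Agent.KTB.H41.bpl hIDN hRAY hPEL hTCH
  have hBFI : BfiStmt := Pool.Agent.KTB.H51.bfi hIDN hRAY hTCH hBPL
  have hBAS : BasStmt := Pool.Agent.KTB.H49.bas hRAY hTRM hTUN hBSA hUPH hBRH hBFI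
  have hDIM : DimStmt := Pool.Agent.KTB.H90.dim
  have hRKA : RkaStmt := Pool.Agent.KTB.H14.rka hIDN hDIM
  have hTGA : TgaStmt := Pool.Agent.KTB.H21.tga
  have hTGB : TgbStmt := Pool.Agent.KTB.H66.tgb hTGA
  have hTGM : TgmStmt := Pool.Agent.KTB.H80.tgm hTGA hTGB
  have hTGC : TgcStmt := Pool.Agent.KTB.H23.tgc hTGA
  have hTGD : TgdStmt := Pool.Agent.KTB.H95.tgd hTGA hTGB hTGC hTGM
  have hFBG : FbgStmt := Pool.Agent.KTB.H16.fbg hTGM hTGD
  have hRKB : RkbStmt := Pool.Agent.KTB.H64.rkb hDIM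
  have hFRA : FraStmt := Pool.Agent.KTB.H41.fra hIDN hTGA hRKA hRKB
  have hFRB : FrbStmt := Pool.Agent.KTB.H65.frb
  have hFRC : FrcStmt := Pool.Agent.KTB.H26.frc hRKA hFBG hFRA hFRB
  have hXCL : XclStmt := Pool.Agent.KTB.H25.xcl hIDN hCLO
  have hFRT : FrtStmt := Pool.Agent.KTB.H91.frt
  have hIPX : IpxStmt := Pool.Agent.KTB.H54.ipx hIDN hRAY hDIM hFRT
  have hSTE : SteStmt := Pool.Agent.KTB.H50.ste hXTK hXCL hIPX
  have hCLM : ClmStmt := Pool.Agent.KTB.H60.clm hIDN hRAY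
  have hNST : NstStmt := Pool.Agent.KTB.H24.nst hRAY hFRC hSTE hCLM
  have hNTH : NthStmt := Pool.Agent.KTB.H95.nth hRAY hBAS hNST
  have hRMV : RmvStmt := Pool.Agent.KTB.H10RMV.rmv hRAY
  have hTWO : TwoStmt := Pool.Agent.KTB.H38.two hIDN
  have hIS0 : Is0Stmt := Pool.Agent.KTB.H60.is0 hIDN hRAY hTRM hTWO
  have hDST : DstStmt := Pool.Agent.KTB.H31.dst hTWO hFRT
  have hDSC : DscStmt := Pool.Agent.KTB.H90.dsc hTWO hRMV hDST hFRC hXCL hIPX
  have hXCS : XcsStmt := Pool.Agent.KTB.H91.xcs hIDN hCLO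
  have hIS1 : Is1Stmt := Pool.Agent.KTB.H22.is1 hIDN hTWO hRMV hDST hDSC hXCS hIPX
  have hISO : IsoStmt := Pool.Agent.KTB.H60.iso hRMV hFRC hIS0 hIS1
  have hKIA : KiaStmt := Pool.Agent.KTB.H38.kia hRAY hTRM hIPM hCHN hINS hNTH hISO
  have hKVK : KvkStmt := Pool.Agent.KTB.H41.kvk
  have hKPN : KpnStmt := Pool.Agent.KTB.H92.kpn hKIA hKVK
  have hKPI : Pool.Agent.GEN.KpiStmt := Pool.Agent.KTB.H58.kpi hKPN Pool.Agent.GEN.H21.lmx
  exact hKPI

end Pool.Agent.KTB.H63
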